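import Mathlib
import Pool.Agent.C8.St

/-!
# C9K: the tube lemma for K_4 with three multiple classes which are not a line (helper59)

As Module D of C8 (helper3).  The classes `l 0, ..., l 4` are the points `3, ..., 7` of `F_2^3`, the lines
inside are `{0, 1, 4}` and `{0, 2, 3}`.
-/

set_option autoImplicit false

namespace Pool.Agent.C9K

open Pool.Agent.C8

/-- the polynomial of `K_4` in the variables `weight - 1` -/
private noncomputable def k4ZP (p2 p3 p4 p5 p6 p7 : ℂ) : ℂ :=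
  p2 * p3 * p4 * p5 * p6 * p7 +
    (p3 * p4 * p5 * p6 * p7 + p2 * p4 * p5 * p6 * p7 + p2 * p3 * p5 * p6 * p7 +
      p2 * p3 * p4 * p6 * p7 + p2 * p3 * p4 * p5 * p7 + p2 * p3 * p4 * p5 * p6) +
    (p4 * p5 * p6 * p7 + p3 * p5 * p6 * p7 + p3 * p4 * p6 * p7 + p3 * p4 * p5 * p7 +
      p3 * p4 * p5 * p6 + p2 * p5 * p6 * p7 + p2 * p4 * p6 * p7 + p2 * p4 * p5 * p7 +
      p2 * p4 * p5 * p6 + p2 * p3 * p6 * p7 + p2 * p3 * p5 * p7 + p2 * p3 * p5 * p6 +
      p2 * p3 * p4 * p7 + p2 * p3 * p4 * p6 + p2 * p3 * p4 * p5) +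
    (p5 * p6 * p7 + p4 * p6 * p7 + p4 * p5 * p7 + p4 * p5 * p6 + p3 * p6 * p7 + p3 * p5 * p6 +
      p3 * p4 * p7 + p3 * p4 * p5 + p2 * p6 * p7 + p2 * p5 * p7 + p2 * p4 * p6 + p2 * p4 * p5 +
      p2 * p3 * p7 + p2 * p3 * p6 + p2 * p3 * p5 + p2 * p3 * p4)

private theorem k4_ZP_eq (b c d e f g : ℂ) (hb : b ≠ 0) (hc : c ≠ 0) (hd : d ≠ 0) (he : e ≠ 0)
    (hf : f ≠ 0) (hg : g ≠ 0) :
    k4ZP b⁻¹ c⁻¹ d⁻¹ e⁻¹ f⁻¹ g⁻¹ = F7 0 b c d e f g * (b⁻¹ * c⁻¹ * d⁻¹ * e⁻¹ * f⁻¹ * g⁻¹) := by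
  unfold k4ZP F7
  field_simp
  ring

private theorem k4_ZP_neg (x y z w t : ℂ) :
    k4ZP (-1 - 1) (t - 1) (x - 1) (w - 1) (z - 1) (y - 1) =
      -(8 - 2 * (x + y + z + w) - (x - z) * (y - w) - t * (3 - x * z - y * w - x * y * z * w)) := by
  unfold k4ZP
  ring

private theorem k4_re (u : ℂ) (hu : ‖u‖ = 1) (h1 : u ≠ 1) : ((u - 1)⁻¹).re = -1 / 2 := by
  have hn : Complex.normSq (u - 1) = -2 * (u - 1).re := by
    have h2 : Complex.normSq u = 1 := by rw [Complex.normSq_eq_norm_sq, hu]; norm_num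
    rw [Complex.normSq_apply] at h2 ⊢
    simp only [Complex.sub_re, Complex.sub_im, Complex.one_re, Complex.one_im]
    nlinarith
  have h0 : Complex.normSq (u - 1) ≠ 0 := by
    rw [Ne, Complex.normSq_eq_zero]
    exact sub_ne_zero.mpr h1
  have h3 : (u - 1).re ≠ 0 := by
    intro h
    rw [hn, h] at h0
    simp at h0
  rw [Complex.inv_re, hn]
  field_simp

private theorem k4_cs_re (z : ℂ) (hz : ‖z‖ = 1) (l : List ℤ) (h : ∀ n ∈ l, z ^ n ≠ 1) :
    (cs l z).re = -(l.length : ℝ) / 2 := by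
  induction l with
  | nil => simp [cs]
  | cons n l ih =>
    have h1 : cs (n :: l) z = (z ^ n - 1)⁻¹ + cs l z := by simp [cs]
    have h2 := ih fun m hm => h m (List.mem_cons_of_mem _ hm)
    have h3 : ‖z ^ n‖ = 1 := by rw [norm_zpow, hz, one_zpow]
    rw [h1, Complex.add_re, h2, k4_re _ h3 (h n List.mem_cons_self)]
    push_cast [List.length_cons]
    ring

private theorem k4_disc (w : ℂ) (hw : w.re ≤ -1 / 2) : w ≠ 0 ∧ ‖1 + w⁻¹‖ ≤ 1 := by
  have h0 : w ≠ 0 := by
    rintro rfl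
    norm_num at hw
  refine ⟨h0, ?_⟩
  have h1 : 1 + w⁻¹ = (w + 1) / w := by field_simp
  have h2 : ‖w + 1‖ ≤ ‖w‖ := by
    have h3 : Complex.normSq (w + 1) ≤ Complex.normSq w := by
      rw [Complex.normSq_apply, Complex.normSq_apply]
      simp only [Complex.add_re, Complex.add_im, Complex.one_re, Complex.one_im]
      nlinarith
    rw [Complex.normSq_eq_norm_sq, Complex.normSq_eq_norm_sq] at h3
    exact le_of_sq_le_sq h3 (norm_nonneg _)
  rw [h1, norm_div, div_le_one (norm_pos_iff.mpr h0)]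
  exact h2

/-- the point `z₀` -/
private noncomputable def k4z (v : ℕ) : ℂ := Complex.exp (Complex.I * Real.pi / 2 ^ v)

private theorem k4z_norm (v : ℕ) : ‖k4z v‖ = 1 := by
  unfold k4z
  have : Complex.I * Real.pi / 2 ^ v = ((Real.pi / 2 ^ v : ℝ) : ℂ) * Complex.I := by
    push_cast
    ring
  rw [this, Complex.norm_exp_ofReal_mul_I]

private theorem k4z_pow (v : ℕ) (n : ℤ) :
    k4z v ^ n = 1 ↔ (2 : ℤ) ^ (v + 1) ∣ n := by
  unfold k4z
  rw [← Complex.exp_int_mul, Complex.exp_eq_one_iff]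
  have hpi : (Real.pi : ℂ) ≠ 0 := by exact_mod_cast Real.pi_ne_zero
  have h2 : (2 : ℂ) ^ v ≠ 0 := pow_ne_zero _ two_ne_zero
  constructor
  · rintro ⟨k, hk⟩
    refine ⟨k, ?_⟩
    have h3 : (n : ℂ) = 2 ^ (v + 1) * k := by
      have h4 : (n : ℂ) * (Complex.I * Real.pi) = k * (2 * Real.pi * Complex.I) * 2 ^ v := by
        rw [← hk]
        field_simp
      have h5 : ((n : ℂ) - 2 ^ (v + 1) * k) * (Complex.I * Real.pi) = 0 := by
        rw [sub_mul, h4]
        ring
      rcases mul_eq_zero.mp h5 with h6 | h6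
      · exact sub_eq_zero.mp h6
      · exact absurd h6 (mul_ne_zero Complex.I_ne_zero hpi)
    exact_mod_cast h3
  · rintro ⟨k, hk⟩
    refine ⟨k, ?_⟩
    rw [hk]
    push_cast
    rw [pow_succ]
    field_simp

private theorem k4z_ne (v : ℕ) (n : ℤ) (hn : n ≠ 0) (h : padicValInt 2 n ≤ v) : k4z v ^ n ≠ 1 := by
  intro h1
  rw [k4z_pow] at h1
  have h2 : Fact (Nat.Prime 2) := ⟨Nat.prime_two⟩
  have h3 : v + 1 ≤ padicValInt 2 n := by
    have h4 := (padicValInt_dvd_iff (p := 2) (v + 1) n).mp (by exact_mod_cast h1)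
    rcases h4 with h4 | h4
    · exact absurd h4 hn
    · exact h4
  omega

private theorem k4z_neg (r : ℤ) (hr : r ≠ 0) : k4z (padicValInt 2 r) ^ r = -1 := by
  have h0 := k4z_ne (padicValInt 2 r) r hr le_rfl
  have h1 : (k4z (padicValInt 2 r) ^ r) ^ 2 = 1 := by
    rw [← zpow_natCast, ← zpow_mul, k4z_pow]
    have h2 : (2 : ℤ) ^ padicValInt 2 r ∣ r := by
      have := padicValInt_dvd (p := 2) r
      exact_mod_cast this
    obtain ⟨k, hk⟩ := h2
    refine ⟨k, ?_⟩
    rw [pow_succ]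
    push_cast
    linear_combination 2 * hk
  have h1' : (k4z (padicValInt 2 r) ^ r - 1) * (k4z (padicValInt 2 r) ^ r + 1) = 0 := by
    linear_combination h1
  rcases mul_eq_zero.mp h1' with h | h
  · exact absurd (sub_eq_zero.mp h) h0
  · exact eq_neg_of_add_eq_zero_left h

/-- three different places out of five which are not a line -/
private theorem k4_triples : ∀ S : Finset (Fin 5), S.card = 3 → S ≠ {0, 1, 4} → S ≠ {0, 2, 3} →
    S = {0, 1, 2} ∨ S = {0, 1, 3} ∨ S = {0, 2, 4} ∨ S = {0, 3, 4} ∨ S = {1, 2, 3} ∨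
      S = {1, 2, 4} ∨ S = {1, 3, 4} ∨ S = {2, 3, 4} := by
  decide

/-- the polynomial at a point where exactly three weights, not on a line, are `1` -/
private theorem k4_three (p : Fin 5 → ℂ) (q : ℂ) (hq : q ≠ 0) (S : Finset (Fin 5))
    (hS : S.card = 3) (h1 : S ≠ {0, 1, 4}) (h2 : S ≠ {0, 2, 3}) (hp : ∀ j, j ∈ S ↔ p j = 0) :
    k4ZP q (p 0) (p 1) (p 2) (p 3) (p 4) ≠ 0 := by
  have key : ∀ j, j ∉ S → p j ≠ 0 := fun j hj h => hj ((hp j).2 h)
  rcases k4_triples S hS h1 h2 with rfl | rfl | rfl | rfl | rfl | rfl | rfl | rfl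
  · have a0 := (hp 0).1 (by decide)
    have a1 := (hp 1).1 (by decide)
    have a2 := (hp 2).1 (by decide)
    have e : k4ZP q (p 0) (p 1) (p 2) (p 3) (p 4) = q * p 3 * p 4 := by
      rw [a0, a1, a2]
      unfold k4ZP
      ring
    rw [e]
    exact mul_ne_zero (mul_ne_zero hq (key 3 (by decide))) (key 4 (by decide))
  · have a0 := (hp 0).1 (by decide)
    have a1 := (hp 1).1 (by decide)
    have a2 := (hp 3).1 (by decide)
    have e : k4ZP q (p 0) (p 1) (p 2) (p 3) (p 4) = q * p 2 * p 4 := by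
      rw [a0, a1, a2]
      unfold k4ZP
      ring
    rw [e]
    exact mul_ne_zero (mul_ne_zero hq (key 2 (by decide))) (key 4 (by decide))
  · have a0 := (hp 0).1 (by decide)
    have a1 := (hp 2).1 (by decide)
    have a2 := (hp 4).1 (by decide)
    have e : k4ZP q (p 0) (p 1) (p 2) (p 3) (p 4) = q * p 1 * p 3 := by
      rw [a0, a1, a2]
      unfold k4ZP
      ring
    rw [e]
    exact mul_ne_zero (mul_ne_zero hq (key 1 (by decide))) (key 3 (by decide))
  · have a0 := (hp 0).1 (by decide)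
    have a1 := (hp 3).1 (by decide)
    have a2 := (hp 4).1 (by decide)
    have e : k4ZP q (p 0) (p 1) (p 2) (p 3) (p 4) = q * p 1 * p 2 := by
      rw [a0, a1, a2]
      unfold k4ZP
      ring
    rw [e]
    exact mul_ne_zero (mul_ne_zero hq (key 1 (by decide))) (key 2 (by decide))
  · have a0 := (hp 1).1 (by decide)
    have a1 := (hp 2).1 (by decide)
    have a2 := (hp 3).1 (by decide)
    have e : k4ZP q (p 0) (p 1) (p 2) (p 3) (p 4) = q * p 0 * p 4 := by
      rw [a0, a1, a2]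
      unfold k4ZP
      ring
    rw [e]
    exact mul_ne_zero (mul_ne_zero hq (key 0 (by decide))) (key 4 (by decide))
  · have a0 := (hp 1).1 (by decide)
    have a1 := (hp 2).1 (by decide)
    have a2 := (hp 4).1 (by decide)
    have e : k4ZP q (p 0) (p 1) (p 2) (p 3) (p 4) = q * p 0 * p 3 := by
      rw [a0, a1, a2]
      unfold k4ZP
      ring
    rw [e]
    exact mul_ne_zero (mul_ne_zero hq (key 0 (by decide))) (key 3 (by decide))
  · have a0 := (hp 1).1 (by decide)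
    have a1 := (hp 3).1 (by decide)
    have a2 := (hp 4).1 (by decide)
    have e : k4ZP q (p 0) (p 1) (p 2) (p 3) (p 4) = q * p 0 * p 2 := by
      rw [a0, a1, a2]
      unfold k4ZP
      ring
    rw [e]
    exact mul_ne_zero (mul_ne_zero hq (key 0 (by decide))) (key 2 (by decide))
  · have a0 := (hp 2).1 (by decide)
    have a1 := (hp 3).1 (by decide)
    have a2 := (hp 4).1 (by decide)
    have e : k4ZP q (p 0) (p 1) (p 2) (p 3) (p 4) = q * p 0 * p 1 := by
      rw [a0, a1, a2]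
      unfold k4ZP
      ring
    rw [e]
    exact mul_ne_zero (mul_ne_zero hq (key 0 (by decide))) (key 1 (by decide))

/-- **Module D with three multiple classes which are not a line.** -/
theorem K4b (hN : St_Near) (hW : St_Wheat) (r : ℤ) (l : Fin 5 → List ℤ) (B : Finset ℤ)
    (hr : r ≠ 0) (hl0 : ∀ j, l j ≠ []) (hln : ∀ j, ∀ n ∈ l j, n ≠ 0)
    (hcard : (Finset.univ.filter fun j => (l j).length ≠ 1).card ≤ 3)
    (hline : (Finset.univ.filter fun j => (l j).length ≠ 1) ≠ {0, 1, 4})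
    (hline' : (Finset.univ.filter fun j => (l j).length ≠ 1) ≠ {0, 2, 3})
    (hval : ∀ j n, l j = [n] → padicValInt 2 n ≤ padicValInt 2 r) (hB : ∀ b ∈ B, b ≠ 0)
    (hrB : r ∈ B) (hlB : ∀ j, ∀ n ∈ l j, n ∈ B) :
    ∃ z : ℂ, ‖z‖ = 1 ∧ (∀ b ∈ B, z ^ b ≠ 1) ∧
      F7 0 (cs [r] z) (cs (l 0) z) (cs (l 1) z) (cs (l 2) z) (cs (l 3) z) (cs (l 4) z) ≠ 0 := by
  set z₀ : ℂ := k4z (padicValInt 2 r) with hz₀
  have hz0n : ‖z₀‖ = 1 := k4z_norm _
  have hz0r : z₀ ^ r = -1 := k4z_neg r hr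
  have hz00 : z₀ ≠ 0 := by
    intro h
    rw [h] at hz0n
    simp at hz0n
  have hz0s : ∀ j n, l j = [n] → z₀ ^ n ≠ 1 := fun j n hj =>
    k4z_ne _ n (hln j n (by rw [hj]; exact List.mem_cons_self)) (hval j n hj)
  -- the effective weights
  let X : ℂ → (Fin 5 → ℂ) → Fin 5 → ℂ := fun z s j =>
    if (l j).length = 1 then z ^ (l j).head (hl0 j) else s j
  let Φ : ℂ × (Fin 5 → ℂ) → ℂ := fun q =>
    k4ZP (q.1 ^ r - 1) (X q.1 q.2 0 - 1) (X q.1 q.2 1 - 1) (X q.1 q.2 2 - 1) (X q.1 q.2 3 - 1)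
      (X q.1 q.2 4 - 1)
  have hO : IsOpen {q : ℂ × (Fin 5 → ℂ) | q.1 ≠ 0} :=
    isOpen_ne_fun continuous_fst continuous_const
  have hpow : ∀ n : ℤ, ContinuousOn (fun q : ℂ × (Fin 5 → ℂ) => q.1 ^ n)
      {q : ℂ × (Fin 5 → ℂ) | q.1 ≠ 0} := by
    intro n
    exact continuous_fst.continuousOn.zpow₀ n fun q hq => Or.inl hq
  have hX : ∀ j, ContinuousOn (fun q : ℂ × (Fin 5 → ℂ) => X q.1 q.2 j - 1)
      {q : ℂ × (Fin 5 → ℂ) | q.1 ≠ 0} := by
    intro j
    by_cases hj : (l j).length = 1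
    · simp only [X, hj, if_true]
      exact (hpow _).sub continuousOn_const
    · simp only [X, hj, if_false]
      exact ((continuous_apply j).comp continuous_snd).continuousOn.sub continuousOn_const
  have hΦ : ContinuousOn Φ {q : ℂ × (Fin 5 → ℂ) | q.1 ≠ 0} := by
    have h2 : ContinuousOn (fun q : ℂ × (Fin 5 → ℂ) => q.1 ^ r - 1)
        {q : ℂ × (Fin 5 → ℂ) | q.1 ≠ 0} := (hpow r).sub continuousOn_const
    have h3 := hX 0
    have h4 := hX 1
    have h5 := hX 2
    have h6 := hX 3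
    have h7 := hX 4
    simp only [Φ, k4ZP]
    fun_prop
  have hopen := hΦ.isOpen_inter_preimage hO (isOpen_compl_singleton (x := (0 : ℂ)))
  have hK : IsCompact (Set.pi Set.univ fun _ : Fin 5 => Metric.closedBall (0 : ℂ) 1) :=
    isCompact_univ_pi fun _ => isCompact_closedBall _ _
  have hsub : ({z₀} : Set ℂ) ×ˢ (Set.pi Set.univ fun _ : Fin 5 => Metric.closedBall (0 : ℂ) 1) ⊆
      {q : ℂ × (Fin 5 → ℂ) | q.1 ≠ 0} ∩ Φ ⁻¹' {0}ᶜ := by
    rintro ⟨z, s⟩ ⟨hz, hs⟩
    simp only [Set.mem_singleton_iff] at hz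
    subst hz
    have hs' : ∀ j, ‖s j‖ ≤ 1 := by
      intro j
      have := hs j (Set.mem_univ _)
      simpa using this
    refine ⟨hz00, ?_⟩
    have hXn : ∀ j, ‖X z₀ s j‖ ≤ 1 := by
      intro j
      by_cases hj : (l j).length = 1
      · simp only [X, hj, if_true]
        rw [norm_zpow, hz0n, one_zpow]
      · simp only [X, hj, if_false]
        exact hs' j
    have hX1 : ∀ j, X z₀ s j = 1 → (l j).length ≠ 1 := by
      intro j h1 hj
      obtain ⟨n, hn⟩ := List.length_eq_one_iff.mp hj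
      have h3 : (l j).head (hl0 j) = n := by simp [hn]
      simp only [X, hj, if_true, h3] at h1
      exact hz0s j n hn h1
    have hq2 : z₀ ^ r - 1 ≠ 0 := by
      rw [hz0r]
      norm_num
    simp only [Set.mem_preimage, Set.mem_compl_iff, Set.mem_singleton_iff, Φ]
    set T : Finset (Fin 5) := Finset.univ.filter fun j => X z₀ s j = 1 with hT
    have hTM : T ⊆ Finset.univ.filter fun j => (l j).length ≠ 1 := by
      intro j hj
      rw [hT, Finset.mem_filter] at hj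
      rw [Finset.mem_filter]
      exact ⟨Finset.mem_univ _, hX1 j hj.2⟩
    by_cases hT2 : T.card ≤ 2
    · have hlen : (([X z₀ s 1, X z₀ s 4, X z₀ s 3, X z₀ s 2, X z₀ s 0].filter
          fun t => t = 1).length ≤ 2) := by
        have h5 : ([X z₀ s 1, X z₀ s 4, X z₀ s 3, X z₀ s 2, X z₀ s 0].filter
            fun t => t = 1).length =
            (([1, 4, 3, 2, 0] : List (Fin 5)).filter fun j => X z₀ s j = 1).length := by
          have : [X z₀ s 1, X z₀ s 4, X z₀ s 3, X z₀ s 2, X z₀ s 0] =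
              ([1, 4, 3, 2, 0] : List (Fin 5)).map (X z₀ s) := rfl
          rw [this, List.filter_map, List.length_map]
          rfl
        rw [h5]
        have hnd : (([1, 4, 3, 2, 0] : List (Fin 5)).filter fun j => X z₀ s j = 1).Nodup :=
          List.Nodup.filter _ (by decide)
        rw [← List.toFinset_card_of_nodup hnd]
        refine (Finset.card_le_card ?_).trans hT2
        intro j hj
        simp only [List.mem_toFinset, List.mem_filter, decide_eq_true_eq] at hj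
        rw [hT, Finset.mem_filter]
        exact ⟨Finset.mem_univ _, hj.2⟩
      have h6 := hW (X z₀ s 1) (X z₀ s 4) (X z₀ s 3) (X z₀ s 2) (X z₀ s 0) (hXn 1) (hXn 4)
        (hXn 3) (hXn 2) (hXn 0) hlen
      rw [hz0r, k4_ZP_neg]
      exact neg_ne_zero.mpr h6
    · have hT3 : T.card = 3 := by
        have := Finset.card_le_card hTM
        omega
      have hTeq : T = Finset.univ.filter fun j => (l j).length ≠ 1 :=
        Finset.eq_of_subset_of_card_le hTM (by omega)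
      refine k4_three (fun j => X z₀ s j - 1) (z₀ ^ r - 1) hq2 T hT3 ?_ ?_ ?_
      · rw [hTeq]
        exact hline
      · rw [hTeq]
        exact hline'
      · intro j
        rw [hT, Finset.mem_filter]
        constructor
        · intro h
          exact sub_eq_zero.2 h.2
        · intro h
          exact ⟨Finset.mem_univ _, sub_eq_zero.1 h⟩
  obtain ⟨u, v, hu, hv, hzu, hKv, huv⟩ := generalized_tube_lemma isCompact_singleton hK hopen hsub
  obtain ⟨z, hzu', hzn, -, hzB⟩ := hN z₀ u B hz0n hu (hzu rfl) hB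
  refine ⟨z, hzn, hzB, ?_⟩
  have hre : ∀ j, (cs (l j) z).re ≤ -1 / 2 := by
    intro j
    rw [k4_cs_re z hzn (l j) fun n hn => hzB n (hlB j n hn)]
    have h1 : 1 ≤ (l j).length := List.length_pos_iff.mpr (hl0 j)
    have h2 : (1 : ℝ) ≤ (l j).length := by exact_mod_cast h1
    linarith
  have hd : ∀ j, cs (l j) z ≠ 0 ∧ ‖1 + (cs (l j) z)⁻¹‖ ≤ 1 := fun j => k4_disc _ (hre j)
  have hb : cs [r] z ≠ 0 := by
    simp only [cs, List.map_cons, List.map_nil, List.sum_cons, List.sum_nil, add_zero]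
    exact inv_ne_zero (sub_ne_zero.mpr (hzB r hrB))
  have hmem : ((z, fun j => 1 + (cs (l j) z)⁻¹) : ℂ × (Fin 5 → ℂ)) ∈ u ×ˢ v := by
    refine ⟨hzu', hKv ?_⟩
    intro j _
    simpa using (hd j).2
  have h7 := (huv hmem).2
  simp only [Set.mem_preimage, Set.mem_compl_iff, Set.mem_singleton_iff, Φ] at h7
  have hXj : ∀ j, X z (fun j => 1 + (cs (l j) z)⁻¹) j - 1 = (cs (l j) z)⁻¹ := by
    intro j
    by_cases hj : (l j).length = 1
    · obtain ⟨n, hn⟩ := List.length_eq_one_iff.mp hj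
      have h3 : (l j).head (hl0 j) = n := by simp [hn]
      simp only [X, hj, if_true, h3]
      rw [hn]
      simp [cs]
    · simp only [X, hj, if_false]
      ring
  have hbr : z ^ r - 1 = (cs [r] z)⁻¹ := by simp [cs]
  rw [hXj 0, hXj 1, hXj 2, hXj 3, hXj 4, hbr,
    k4_ZP_eq _ _ _ _ _ _ hb (hd 0).1 (hd 1).1 (hd 2).1 (hd 3).1 (hd 4).1] at h7
  exact fun h => h7 (by rw [h, zero_mul])

end Pool.Agent.C9K
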